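import Pool.Agent.MWN.StmtsH

/-!
# Row N4A of block MWN (helper49)
-/

namespace Pool.Agent.MWN.H49

open Pool.Agent.Helper14_MV Pool.Agent.Helper2_MV Pool.Agent.MVO Pool.Agent.MWL Pool.Agent.MWS
  Pool.Agent.MWF

theorem rr_trans {β : FIC} {l m n : List ℕ} (h : RR β l m) (h' : RR β m n) : RR β l n :=
  β.trans h h'

theorem lr {β : FIC} (h : HB β) : LR 1 (FC.ofFIC β) where
  pos := le_rfl
  per := h.ap
  rr := h.rr

/-- the blocks of the left word of `C3a` -/
def Ub (st : Bool) : ℕ → List ℕ := fun j =>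
  if j = 0 then (if st then [1, 0, 0] else [0, 0, 1]) else if j = 1 then [1] else
    if j = 2 then [0, 0] else []

/-- the blocks of the right word of `C3a` -/
def Vb : ℕ → List ℕ := fun j =>
  if j = 0 then [0, 1, 0] else if j = 1 then [1] else if j = 2 then [0, 0] else []

theorem okU (st : Bool) : OkB 2 (Ub st) := by
  constructor
  · intro j hj c hc
    unfold NS
    cases st <;> interval_cases j <;> simp [Ub] at hc <;> omega
  · intro j hj c hc
    cases st <;> interval_cases j <;> simp [Ub] at hc <;>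
      (unfold deg; simp only [Finset.sum_range_succ, Finset.sum_range_zero]) <;>
      rcases hc with rfl | rfl <;> decide

theorem okV : OkB 2 Vb := by
  constructor
  · intro j hj c hc
    unfold NS
    interval_cases j <;> simp [Vb] at hc <;> omega
  · intro j hj c hc
    have h01 : c = 0 ∨ c = 1 := by
      interval_cases j <;> simp [Vb] at hc <;> omega
    unfold deg
    simp only [Finset.sum_range_succ, Finset.sum_range_zero]
    rcases h01 with rfl | rfl <;> decide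

theorem twU (st : Bool) : Two01 2 (Ub st) := by
  intro j hj c hc
  cases st <;> interval_cases j <;> simp [Ub] at hc <;> omega

theorem twV : Two01 2 Vb := by
  intro j hj c hc
  interval_cases j <;> simp [Vb] at hc <;> omega

theorem four {β : FIC} (h : HB β) : RR β [0, 0, 0, 0] [0, 0] := by
  have h1 : RR β [0, 0, 0] [0, 0, 0, 0] := h.ap.append (RR.refl [0])
  exact rr_trans h1.symm h.ap.symm

/-- clause C3a from the failure of C4a -/
theorem c3a (hP : NphStmt) (hX : NcxStmt) (hO : NcoStmt) (hA : ArrStmt) {β : FIC} (hH : HB β)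
    (hI : Iso3 β) (hM : ModF β) (hJ : ¬ Oh β (Bit.J 3)) (h4 : ¬ C4a β) (st : Bool) :
    C3a β st := by
  by_contra h3
  have hF : ¬ Oh β Bit.F := by
    intro hF
    apply h3
    have hab : Ab 1 (FC.ofFIC β) 2 (wo 1 (ty (Ub st) 0)) 1 := by
      refine (FC.ofFIC β).ext (a := v3 2 0 2) (b := ad 1 (v3 2 0 2) 1) ?_ ?_ hF
      · intro j hj
        cases st <;> interval_cases j <;> rfl
      · intro j hj
        cases st <;> interval_cases j <;> rfl
    have := hO β hH hI 2 (Ub st) Vb 0 1 1 (okU st) okV (twU st) twV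
      (by intro j hj; cases st <;> interval_cases j <;> simp [ty, Ub, Vb])
      (by intro j hj; cases st <;> interval_cases j <;> simp [ty, Ub, Vb])
      (Or.inl ⟨rfl, rfl⟩) (by norm_num) (by cases st <;> simp [Ub])
      (by cases st <;> decide) (by decide) hab
    cases st
    · exact this
    · exact this
  obtain ⟨hEF, hGF, -⟩ := hA 1 (FC.ofFIC β) (lr hH)
  have hE : ¬ Oh β Bit.E := fun h => hF (hEF h)
  have hG : ¬ Oh β Bit.G := fun h => hF (hGF h)
  have key := hP β hH hI hM 3 0 (cd4 Cd.one Cd.z Cd.one Cd.one) (cd4 Cd.one Cd.one Cd.z Cd.z)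
    (cd4 Cd.pos Cd.z Cd.any Cd.any) (cd4 Cd.one Cd.one Cd.z Cd.z) st
    (v4 2 0 2 2) (v4 1 0 1 1) (v4 1 1 0 0) (v4 1 1 0 0) (by decide +kernel) (by decide) (by decide)
    (by decide) (by decide)
    (hX β hH hI [8, 10] 3 _ (by simp; exact hJ) (by decide +kernel))
    (hX β hH hI [8] 3 _ (by simp) (by decide +kernel))
    (hX β hH hI [8, 10, 0, 1, 2] 3 _ (by simp; exact ⟨hJ, hE, hF, hG⟩) (by decide +kernel))
    (hX β hH hI [8] 3 _ (by simp) (by decide +kernel))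
  rcases key with key | key
  · apply h4
    cases st
    · have h : RR β [0, 1, 2, 1, 3, 0, 4, 0] [1, 0, 2, 1, 3, 0, 4, 0] := key
      exact h.filter (fun c => decide (c ≠ 4))
    · have h : RR β [1, 0, 2, 1, 3, 0, 4, 0] [0, 1, 2, 1, 3, 0, 4, 0] := key
      exact (h.filter (fun c => decide (c ≠ 4))).symm
  · apply h3
    cases st
    · have h : RR β [0, 0, 1, 2, 1, 3, 0, 0, 4, 0, 0] [0, 1, 0, 2, 1, 3, 0, 0, 4, 0, 0] := key
      have h' : RR β [0, 0, 1, 2, 1, 3, 0, 0, 0, 0] [0, 1, 0, 2, 1, 3, 0, 0, 0, 0] :=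
        h.filter (fun c => decide (c ≠ 4))
      have e1 : RR β [0, 0, 1, 2, 1, 3, 0, 0, 0, 0] [0, 0, 1, 2, 1, 3, 0, 0] :=
        (RR.refl [0, 0, 1, 2, 1, 3]).append (four hH)
      have e2 : RR β [0, 1, 0, 2, 1, 3, 0, 0, 0, 0] [0, 1, 0, 2, 1, 3, 0, 0] :=
        (RR.refl [0, 1, 0, 2, 1, 3]).append (four hH)
      exact rr_trans e1.symm (rr_trans h' e2)
    · have h : RR β [1, 0, 0, 2, 1, 3, 0, 0, 4, 0, 0] [0, 1, 0, 2, 1, 3, 0, 0, 4, 0, 0] := key
      have h' : RR β [1, 0, 0, 2, 1, 3, 0, 0, 0, 0] [0, 1, 0, 2, 1, 3, 0, 0, 0, 0] :=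
        h.filter (fun c => decide (c ≠ 4))
      have e1 : RR β [1, 0, 0, 2, 1, 3, 0, 0, 0, 0] [1, 0, 0, 2, 1, 3, 0, 0] :=
        (RR.refl [1, 0, 0, 2, 1, 3]).append (four hH)
      have e2 : RR β [0, 1, 0, 2, 1, 3, 0, 0, 0, 0] [0, 1, 0, 2, 1, 3, 0, 0] :=
        (RR.refl [0, 1, 0, 2, 1, 3]).append (four hH)
      exact rr_trans e1.symm (rr_trans h' e2)

/-- row N4A -/
theorem n4a (hP : NphStmt) (hX : NcxStmt) (hO : NcoStmt) (hN : NddStmt) (hA : ArrStmt) :
    N4aStmt := by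
  intro β hH hI hM hJ
  by_contra h4
  by_cases hD : Oh β (Bit.D 0)
  · have h1 := c3a hP hX hO hA hH hI hM hJ h4 false
    have h2 := c3a hP hX hO hA hH hI hM hJ h4 true
    have h1' : RR β [0, 0, 1, 2, 1, 3, 0, 0] [0, 1, 0, 2, 1, 3, 0, 0] := h1
    have h2' : RR β [1, 0, 0, 2, 1, 3, 0, 0] [0, 1, 0, 2, 1, 3, 0, 0] := h2
    have n1 : RR β [0, 1, 2, 1, 3, 0, 0] [0, 0, 1, 2, 1, 3, 0, 0] :=
      hN β hH hD [] [1, 2, 1, 3] [] 0
    have n2 : RR β [1, 0, 2, 1, 3, 0, 0] [1, 0, 0, 2, 1, 3, 0, 0] :=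
      hN β hH hD [1] [2, 1, 3] [] 0
    exact h4 (rr_trans n1 (rr_trans h1' (rr_trans h2'.symm n2.symm)))
  · have key := hP β hH hI hM 3 0 (cd4 Cd.one Cd.z Cd.one Cd.one) (cd4 Cd.one Cd.one Cd.z Cd.z)
      (cd4 Cd.one Cd.z Cd.any Cd.any) (cd4 Cd.one Cd.one Cd.z Cd.z) false
      (v4 1 0 2 2) (v4 1 0 1 1) (v4 1 1 0 0) (v4 1 1 0 0) (by decide +kernel) (by decide)
      (by decide) (by decide) (by decide)
      (hX β hH hI [8, 10] 3 _ (by simp; exact hJ) (by decide +kernel))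
      (hX β hH hI [8] 3 _ (by simp) (by decide +kernel))
      (hX β hH hI [8, 10, 3] 3 _ (by simp; exact ⟨hJ, hD⟩) (by decide +kernel))
      (hX β hH hI [8] 3 _ (by simp) (by decide +kernel))
    apply h4
    rcases key with key | key
    · have h : RR β [0, 1, 2, 1, 3, 0, 4, 0] [1, 0, 2, 1, 3, 0, 4, 0] := key
      exact h.filter (fun c => decide (c ≠ 4))
    · have h : RR β [0, 1, 2, 1, 3, 0, 0, 4, 0, 0] [1, 0, 2, 1, 3, 0, 0, 4, 0, 0] := key
      have h' : RR β [0, 1, 2, 1, 3, 0, 0, 0, 0] [1, 0, 2, 1, 3, 0, 0, 0, 0] :=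
        h.filter (fun c => decide (c ≠ 4))
      have e1 : RR β [0, 1, 2, 1, 3, 0, 0, 0, 0] [0, 1, 2, 1, 3, 0, 0] :=
        (RR.refl [0, 1, 2, 1, 3]).append (four hH)
      have e2 : RR β [1, 0, 2, 1, 3, 0, 0, 0, 0] [1, 0, 2, 1, 3, 0, 0] :=
        (RR.refl [1, 0, 2, 1, 3]).append (four hH)
      exact rr_trans e1.symm (rr_trans h' e2)

end Pool.Agent.MWN.H49
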