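import Pool.Agent.Helper49_MWN.N4A

/-!
# Row N3A of block MWN (helper49)
-/

namespace Pool.Agent.MWN.H49

open Pool.Agent.Helper14_MV Pool.Agent.Helper2_MV Pool.Agent.MVO Pool.Agent.MWL Pool.Agent.MWS
  Pool.Agent.MWF

/-- row N3A -/
theorem n3a (hP : NphStmt) (hX : NcxStmt) (hO : NcoStmt) (hA : ArrStmt) : N3aStmt := by
  intro β hH hI hM hD st
  by_contra h3
  have hF : ¬ Oh β Bit.F := by
    intro hF
    apply h3
    have hab : Ab 1 (FC.ofFIC β) 2 (wo 1 (ty (Ub st) 0)) 1 := by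
      refine (FC.ofFIC β).ext (a := v3 2 0 2) (b := ad 1 (v3 2 0 2) 1) ?_ ?_ hF
      · intro j hj
        cases st <;> interval_cases j <;> rfl
      · intro j hj
        cases st <;> interval_cases j <;> rfl
    have := hO β hH hI 2 (Ub st) Vb 0 1 1 (okU st) okV (twU st) twV
      (by intro j hj; cases st <;> interval_cases j <;> simp [ty, Ub, Vb])
      (by intro j hj; cases st <;> interval_cases j <;> simp [ty, Ub, Vb])
      (Or.inl ⟨rfl, rfl⟩) (by norm_num) (by cases st <;> simp [Ub])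
      (by cases st <;> decide) (by decide) hab
    cases st
    · exact this
    · exact this
  obtain ⟨hEF, hGF, -⟩ := hA 1 (FC.ofFIC β) (lr hH)
  have hE : ¬ Oh β Bit.E := fun h => hF (hEF h)
  have hG : ¬ Oh β Bit.G := fun h => hF (hGF h)
  have key := hP β hH hI hM 2 0 (cd3 Cd.one Cd.z Cd.pos) (cd3 Cd.one Cd.one Cd.z)
    (cd3 Cd.pos Cd.z Cd.pos) (cd3 Cd.one Cd.one Cd.z) st
    (v3 2 0 2) (v3 1 0 2) (v3 1 1 0) (v3 1 1 0) (by decide +kernel) (by decide) (by decide)
    (by decide) (by decide)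
    (hX β hH hI [8, 3] 2 _ (by simp; exact hD) (by decide +kernel))
    (hX β hH hI [8] 2 _ (by simp) (by decide +kernel))
    (hX β hH hI [8, 3, 1, 0, 2] 2 _ (by simp; exact ⟨hD, hF, hE, hG⟩) (by decide +kernel))
    (hX β hH hI [8] 2 _ (by simp) (by decide +kernel))
  rcases key with key | key
  · apply h3
    cases st
    · have h : RR β [0, 1, 2, 1, 3, 0, 0] [1, 0, 2, 1, 3, 0, 0] := key
      exact (RR.refl [0]).append h
    · have h : RR β [1, 0, 2, 1, 3, 0, 0] [0, 1, 2, 1, 3, 0, 0] := key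
      exact h.sub (fun c => if c = 2 then [0, 2] else [c])
  · apply h3
    cases st
    · have h : RR β [0, 0, 1, 2, 1, 3, 0, 0] [0, 1, 0, 2, 1, 3, 0, 0] := key
      exact h
    · have h : RR β [1, 0, 0, 2, 1, 3, 0, 0] [0, 1, 0, 2, 1, 3, 0, 0] := key
      exact h

end Pool.Agent.MWN.H49
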