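import Pool.Agent.Helper49_MWN.N4A

/-!
# Row NHF of block MWN (helper49)
-/

namespace Pool.Agent.MWN.H49

open Pool.Agent.Helper14_MV Pool.Agent.Helper2_MV Pool.Agent.MVO Pool.Agent.MWL Pool.Agent.MWS
  Pool.Agent.MWF

/-- one block words in `0`, `1` which are in no state -/
theorem hst0 {β : FIC} (hH : HB β) (u v : List ℕ) (hu : ∀ c ∈ u, c = 0 ∨ c = 1)
    (hv : ∀ c ∈ v, c = 0 ∨ c = 1) (u0 : 2 ≤ u.count 0) (u1 : 2 ≤ u.count 1)
    (v0 : 2 ≤ v.count 0) (v1 : 2 ≤ v.count 1) (su : [0, 1].Sublist u ∧ [1, 0].Sublist u)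
    (sv : [0, 1].Sublist v ∧ [1, 0].Sublist v) : RR β u v := by
  have ok : ∀ u : List ℕ, (∀ c ∈ u, c = 0 ∨ c = 1) → 2 ≤ u.count 0 → 2 ≤ u.count 1 →
      OkB 0 (fun _ => u) := by
    intro u hu u0 u1
    constructor
    · intro j hj c hc
      unfold NS
      rcases hu c hc with rfl | rfl <;> omega
    · intro j hj c hc
      unfold deg
      simp only [zero_add, Finset.sum_range_one]
      rcases hu c hc with rfl | rfl
      · exact u0
      · exact u1
  refine hH.hst 0 (fun _ => u) (fun _ => v) (ok u hu u0 u1) (ok v hv v0 v1)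
    (fun _ _ c hc => hu c hc) (fun _ _ c hc => hv c hc) (fun _ _ => Or.inr ⟨u0, v0⟩)
    (fun _ _ => Or.inr ⟨u1, v1⟩) ?_
  intro i _ _
  unfold Fst
  constructor
  · simp only [Bool.false_eq_true, if_false]
    exact ⟨fun h => absurd su.2 h, fun h => absurd sv.2 h⟩
  · simp only [if_true]
    exact ⟨fun h => absurd su.1 h, fun h => absurd sv.1 h⟩

/-- row NHF -/
theorem nhf (hN : NddStmt) (h1a : N1aStmt) (h1b : N1bStmt) (h5 : N5xStmt) (h8 : Nh8Stmt)
    (h3 : Nh3Stmt) : NhfStmt := by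
  intro β hH hI hM
  by_cases hJ : Oh β (Bit.J 3)
  · have j0 : RR β [0, 2, 0, 3, 0] [0, 2, 0, 3, 0, 0, 0] := hJ
    have j1 : RR β [0, 2, 0, 3, 0] [0, 2, 0, 3, 0, 0] :=
      rr_trans j0 ((RR.refl [0, 2, 0, 3]).append hH.ap).symm
    by_cases hD : Oh β (Bit.D 0)
    · left
      have e1 : RR β [0, 2, 0, 3, 0, 0] [0, 2, 0, 0, 3, 0, 0] := hN β hH hD [0, 2] [3] [] 0
      have e2 : RR β [0, 2, 0, 0, 3, 0, 0] [0, 0, 2, 0, 0, 3, 0, 0] :=
        hN β hH hD [] [2] [3, 0, 0] 0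
      have c1 : RR β [1, 1, 0, 2, 0, 0] [1, 0, 1, 2, 0, 0] := h1b β hH hI hM hD true
      have c2 : RR β [1, 1, 0, 0, 0] [1, 0, 1, 0, 0] := c1.filter (fun c => decide (c ≠ 2))
      have c3 : RR β [1, 1, 0, 0] [1, 1, 0, 0, 0] := (RR.refl [1, 1]).append hH.ap
      have c4 : RR β [1, 0, 1, 0, 0] [1, 0, 1, 0] := by
        refine hst0 hH _ _ (by simp) (by simp) (by decide) (by decide) (by decide) (by decide)
          ⟨by decide, by decide⟩ ⟨by decide, by decide⟩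
      have c5 : RR β [1, 1, 0, 0] [1, 0, 1, 0] := rr_trans c3 (rr_trans c2 c4)
      have c6 : RR β [0, 0, 1, 1] [0, 1, 0, 1] :=
        c5.sub (fun c => if c = 0 then [1] else [0])
      have c7 : RR β [0, 1, 0, 1] [1, 0, 1, 0] := by
        refine hst0 hH _ _ (by simp) (by simp) (by decide) (by decide) (by decide) (by decide)
          ⟨by decide, by decide⟩ ⟨by decide, by decide⟩
      exact ⟨rr_trans c6 (rr_trans c7 c5.symm), rr_trans j1 (rr_trans e1 e2)⟩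
    · right; right
      have s8 := h8 β hH hI hM hD
      by_cases hD1 : Oh β (Bit.D 1)
      · right
        have d1 : RR β [0, 2, 0, 3, 0, 0] [0, 2, 0, 0, 0, 3, 0, 0] := hD1
        have d2 : RR β [0, 2, 0, 0, 0, 3, 0, 0] [0, 2, 0, 0, 3, 0, 0] :=
          ((RR.refl [0, 2]).append (hH.ap.append (RR.refl [3, 0, 0]))).symm
        exact ⟨s8, rr_trans j1 (rr_trans d1 d2)⟩
      · left
        have c5 : RR β [0, 1, 2, 0, 0, 3, 1, 4, 0, 0] [1, 0, 2, 0, 0, 3, 1, 4, 0, 0] :=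
          h5 β hH hI hM hD1
        have c6 : RR β [1, 0, 2, 1, 1, 3, 0, 4, 1, 1] [0, 1, 2, 1, 1, 3, 0, 4, 1, 1] :=
          c5.sub (fun c => if c = 0 then [1] else if c = 1 then [0] else [c])
        exact ⟨s8, j1, c6.symm⟩
  · right; left
    exact h3 β hH hI hM hJ

end Pool.Agent.MWN.H49
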